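import Pool.Agent.Y723.Z8.StmS
import Pool.Agent.Y87.Z8.PAR
import Pool.Agent.Y804.Z8.PARD8

/-!
# Z8S-PX8: the parametrisation for `Z/2 × Z/8` with the roots

After `Y87/Z8/PAR.lean` and `Y804/Z8/PARD8.lean`.
-/

set_option autoImplicit false

namespace Pool.Agent.Y38.Z8

open Finset Pool.Agent.W262.RK Pool.Agent.W307.RT Pool.Agent.Y87.Z8
open Pool.Agent.Y723.Z8 (M8 N8)

/-- the roots of the cubic -/
theorem roots8 {A B M N g e : ℤ} (hg : 0 < g) (he : 3 * e = g ^ 2 * (M + N))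
    (hA : 3 * A = -(g ^ 4 * (M ^ 2 - M * N + N ^ 2)))
    (hB : 27 * B = g ^ 6 * ((M + N) * (2 * M - N) * (M - 2 * N))) :
    ∃ (e1 e2 e3 : ℤ) (q : ℚ), q ≠ 0 ∧
      (∀ x : ℤ, x ^ 3 + A * x + B = (x - e1) * (x - e2) * (x - e3)) ∧
      ((e2 - e1 : ℤ) : ℚ) = -(M : ℚ) * q ^ 2 ∧ ((e3 - e1 : ℤ) : ℚ) = -(N : ℚ) * q ^ 2 := by
  refine ⟨e, e - g ^ 2 * M, e - g ^ 2 * N, (g : ℚ), by exact_mod_cast hg.ne', fun x => ?_, ?_, ?_⟩
  · have h : 27 * (x ^ 3 + A * x + B) =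
        27 * ((x - e) * (x - (e - g ^ 2 * M)) * (x - (e - g ^ 2 * N))) := by
      have e1 : 27 * (x ^ 3 + A * x + B) = 27 * x ^ 3 + 9 * (3 * A) * x + 27 * B := by ring
      have e2 : 27 * ((x - e) * (x - (e - g ^ 2 * M)) * (x - (e - g ^ 2 * N))) =
          (3 * x - 3 * e) * (3 * x - 3 * e + 3 * (g ^ 2 * M)) *
            (3 * x - 3 * e + 3 * (g ^ 2 * N)) := by ring
      rw [e1, e2, he, hA, hB]
      ring
    linarith
  · push_cast; ring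
  · push_cast; ring

theorem px8 : Pool.Agent.Y723.Z8.S_PX8 := by
  refine ⟨⟨27648, F8p, fun H => ⟨?_, ?_⟩⟩, fun hM => ⟨6 ^ 12, F8p, fun Z => ⟨?_, ?_⟩⟩⟩
  · intro c hc c' hc' hcc
    rw [Finset.mem_coe] at hc hc'
    simp only [Cv, Finset.mem_filter] at hc hc'
    obtain ⟨-, hD, -, -, hmin, hT⟩ := hc
    obtain ⟨-, hD', -, -, hmin', hT'⟩ := hc'
    have r := F8p_rel (core8 hD hT)
    have r' := F8p_rel (core8 hD' hT')
    change Rel8 c (F8p c) at r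
    change Rel8 c' (F8p c') at r'
    rw [← hcc] at r'
    exact rel8_unique r r' hmin hmin'
  · intro c hc
    simp only [Cv, Finset.mem_filter] at hc
    obtain ⟨-, hD, hH, -, hmin, hT⟩ := hc
    have r := F8p_rel (core8 hD hT)
    change Rel8 c (F8p c) at r
    obtain ⟨hb1, hb2⟩ := rel8_bound (A := c.1) (B := c.2) r hH
    set ab := F8p c with hab
    clear_value ab
    obtain ⟨A, B⟩ := c
    obtain ⟨a, b⟩ := ab
    obtain ⟨g, e, hg, hco, hM0, hN0, hne, he, hA, hB⟩ := r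
    exact ⟨hco, hM0, hN0, hne, hb1, hb2, roots8 hg he hA hB⟩
  · intro c hc c' hc' hcc
    obtain ⟨hD, hmin, hT, -⟩ := hc
    obtain ⟨hD', hmin', hT', -⟩ := hc'
    have r := F8p_rel (core8 hD hT)
    have r' := F8p_rel (core8 hD' hT')
    change Rel8 c (F8p c) at r
    change Rel8 c' (F8p c') at r'
    rw [← hcc] at r'
    exact rel8_unique r r' hmin hmin'
  · intro c hc
    obtain ⟨hD, hmin, hT, hZ⟩ := hc
    have r := F8p_rel (core8 hD hT)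
    change Rel8 c (F8p c) at r
    obtain ⟨hm, -⟩ := hM c.1 c.2 hD hmin
    set ab := F8p c with hab
    clear_value ab
    obtain ⟨A, B⟩ := c
    obtain ⟨a, b⟩ := ab
    obtain ⟨g, e, hg, hco, hM0, hN0, hne, he, hA, hB⟩ := r
    refine ⟨hco, hM0, hN0, hne, ?_, roots8 hg he hA hB⟩
    have h3 := Pool.Agent.Y804.Z8.key8 hg hA hB
    change (M8 a b * N8 a b * (M8 a b - N8 a b)).natAbs ^ 2 ≤
      (4 * A ^ 3 + 27 * B ^ 2).natAbs at h3
    change (M8 a b * N8 a b * (M8 a b - N8 a b)).natAbs ^ 2 ≤ 6 ^ 12 * Z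
    change (16 * (4 * A ^ 3 + 27 * B ^ 2)).natAbs ≤
      6 ^ 12 * Pool.Agent.W307.RS.mD (Sh A B) at hm
    change Pool.Agent.W307.RS.mD (Sh A B) ≤ Z at hZ
    rw [Int.natAbs_mul] at hm
    have h5 : 6 ^ 12 * Pool.Agent.W307.RS.mD (Sh A B) ≤ 6 ^ 12 * Z := Nat.mul_le_mul_left _ hZ
    have h6 : (16 : ℤ).natAbs = 16 := rfl
    rw [h6] at hm
    omega

end Pool.Agent.Y38.Z8
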